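import Pool.Agent.Lib.MP_6e7c44_mp.HFin

/-!
Arbitrary masses, highly eccentric homographic periodic solutions (the ratios of the mutual
distances are constant in time: the elliptic Euler and Lagrange solutions): every neighbourhood of
the initial condition contains initial conditions whose solutions exist for all `t ≥ 0` without
collision and have a mutual distance tending to infinity.
The plane is `ℂ`; `q t a` and `v t a` are the position and velocity of body `a` at time `t`.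
-/

set_option autoImplicit false

theorem Pool.Agent.Results.MP_6e7c44_mp.HomographicNearCollision.result (m : Fin 3 → ℝ)
    (hm : ∀ a, 0 < m a) : ∃ K : ℝ, ∀ q v : ℝ → Fin 3 → ℂ,
      (∀ t a, HasDerivAt (fun s => q s a) (v t a) t) →
      (∀ t a, HasDerivAt (fun s => v s a)
        (∑ b ∈ Finset.univ.erase a, (m b / ‖q t b - q t a‖ ^ 3) • (q t b - q t a)) t) →
      (∀ t a b, a ≠ b → q t a ≠ q t b) →
      (∃ d : Fin 3 → Fin 3 → ℝ, ∀ t a b, ‖q t a - q t b‖ = d a b * ‖q t 0 - q t 1‖) →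
      (∃ T : ℝ, 0 < T ∧ ∀ t, ‖q (t + T) 0 - q (t + T) 1‖ = ‖q t 0 - q t 1‖) →
      (∃ s t, K * ‖q s 0 - q s 1‖ ≤ ‖q t 0 - q t 1‖) →
      ∀ U ∈ nhds (q 0, v 0), ∃ p ∈ U, ∃ Q V : ℝ → Fin 3 → ℂ, Q 0 = p.1 ∧ V 0 = p.2 ∧
        (∀ t, 0 ≤ t → ∀ a, HasDerivAt (fun s => Q s a) (V t a) t ∧ HasDerivAt (fun s => V s a)
          (∑ b ∈ Finset.univ.erase a, (m b / ‖Q t b - Q t a‖ ^ 3) • (Q t b - Q t a)) t) ∧
        (∀ t, 0 ≤ t → ∀ a b, a ≠ b → Q t a ≠ Q t b) ∧
        ∃ a b, Filter.Tendsto (fun t => ‖Q t a - Q t b‖) Filter.atTop Filter.atTop := by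
  obtain ⟨K, h⟩ := Pool.Agent.Lib.MP_6e7c44_mp.Hg.homographic_final hm
  exact ⟨K, fun q v h1 h2 h3 h4 h5 h6 U hU => mem_closure_iff_nhds.1 (h q v h1 h2 h3 h4 h5 h6) U hU⟩
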