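import Pool.Agent.Lib.MP_6e7c44_mp.MJ.Cover
import Pool.Agent.Lib.MP_6e7c44_mp.MR.Fin

/-!
A large explicit region of masses (one mass at most two fifteenths of the total and at most half of
each of the other two, which are within a factor fourteen of each other), circular and nearly
circular Lagrange (equilateral homographic) solutions: every neighbourhood of the initial condition
contains initial conditions whose solutions exist without collision for all `t ≥ 0` (`s = 1`) or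
for all `t ≤ 0` (`s = -1`) and have a mutual distance tending to infinity in that direction of time.
The plane is `ℂ`; `q t a` and `v t a` are the position and velocity of body `a` at time `t`.
-/

set_option autoImplicit false

open Pool.Agent.Lib.MP_6e7c44_mp

theorem Pool.Agent.Results.MP_6e7c44_mp.LagrangeMassRegion.result (m : Fin 3 → ℝ)
    (hm : ∀ a, 0 < m a) (h1 : 15 * m 2 ≤ 2 * (m 0 + m 1 + m 2)) (h2 : 2 * m 2 ≤ m 0)
    (h3 : 2 * m 2 ≤ m 1) (h4 : m 0 ≤ 14 * m 1) (h5 : m 1 ≤ 14 * m 0) :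
    ∃ ε : ℝ, 0 < ε ∧ ∀ q v : ℝ → Fin 3 → ℂ,
      (∀ t a, HasDerivAt (fun s => q s a) (v t a) t) →
      (∀ t a, HasDerivAt (fun s => v s a)
        (∑ b ∈ Finset.univ.erase a, (m b / ‖q t b - q t a‖ ^ 3) • (q t b - q t a)) t) →
      (∀ t a b, a ≠ b → q t a ≠ q t b) →
      (∀ t, ‖q t 0 - q t 1‖ = ‖q t 1 - q t 2‖ ∧ ‖q t 1 - q t 2‖ = ‖q t 2 - q t 0‖) →
      (∀ s t, ‖q s 0 - q s 1‖ ≤ (1 + ε) * ‖q t 0 - q t 1‖) →
      ∀ U ∈ nhds (q 0, v 0), ∃ p ∈ U, ∃ s : ℝ, (s = 1 ∨ s = -1) ∧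
        ∃ Q V : ℝ → Fin 3 → ℂ, Q 0 = p.1 ∧ V 0 = p.2 ∧
        (∀ t, 0 ≤ s * t → ∀ a, HasDerivAt (fun τ => Q τ a) (V t a) t ∧ HasDerivAt (fun τ => V τ a)
          (∑ b ∈ Finset.univ.erase a, (m b / ‖Q t b - Q t a‖ ^ 3) • (Q t b - Q t a)) t) ∧
        (∀ t, 0 ≤ s * t → ∀ a b, a ≠ b → Q t a ≠ Q t b) ∧
        ∃ a b, Filter.Tendsto (fun t => ‖Q (s * t) a - Q (s * t) b‖) Filter.atTop Filter.atTop :=
  MR.redE m hm (MR.near_all MR.cover hm h1 h2 h3 h4 h5)
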