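import Pool.Agent.Lib.MP_6e7c44_mp.RS.Final

/-!
Masses at the two to one resonance of the Lagrange relative equilibrium (Routh quantity 16/25,
inside the range of linear stability), one of the two small masses tiny: every neighbourhood of the
initial condition of the relative equilibrium contains initial conditions whose solutions exist for
all `t ≥ 0` without collision and have a mutual distance tending to infinity.
The plane is `ℂ`; `q t a` and `v t a` are the position and velocity of body `a` at time `t`.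
-/

set_option autoImplicit false

open Pool.Agent.Lib.MP_6e7c44_mp

theorem Pool.Agent.Results.MP_6e7c44_mp.ResonantLagrange.result :
    ∃ ε : ℝ, 0 < ε ∧ ∀ (m : Fin 3 → ℝ) (q v : ℝ → Fin 3 → ℂ),
      (∀ a, 0 < m a) →
      675 * (m 0 * m 1 + m 1 * m 2 + m 2 * m 0) = 16 * (m 0 + m 1 + m 2) ^ 2 →
      m 2 ≤ ε * (m 0 + m 1) →
      (∀ t a, HasDerivAt (fun s => q s a) (v t a) t) →
      (∀ t a, HasDerivAt (fun s => v s a)
        (∑ b ∈ Finset.univ.erase a, (m b / ‖q t b - q t a‖ ^ 3) • (q t b - q t a)) t) →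
      (∃ r : ℝ, 0 < r ∧ ∀ t a b, a ≠ b → ‖q t a - q t b‖ = r) →
      ∀ U ∈ nhds (q 0, v 0), ∃ p ∈ U, ∃ Q V : ℝ → Fin 3 → ℂ, Q 0 = p.1 ∧ V 0 = p.2 ∧
        (∀ t, 0 ≤ t → ∀ a, HasDerivAt (fun s => Q s a) (V t a) t ∧ HasDerivAt (fun s => V s a)
          (∑ b ∈ Finset.univ.erase a, (m b / ‖Q t b - Q t a‖ ^ 3) • (Q t b - Q t a)) t) ∧
        (∀ t, 0 ≤ t → ∀ a b, a ≠ b → Q t a ≠ Q t b) ∧
        ∃ a b, Filter.Tendsto (fun t => ‖Q t a - Q t b‖) Filter.atTop Filter.atTop :=
  ⟨1 / 2 ^ 200, by positivity, fun m q v hm hr h2 hq hv ⟨_, r0, he⟩ U hU =>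
    mem_closure_iff_nhds.1 (RS.final m q v hm hr h2 hq hv r0 he) U hU⟩
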